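import Pool.Agent.H939.TT.Main

/-!
# Stratification does not descend along conservative geometric functors
-/

namespace Pool.Agent.Results.MP_ca4e36_al.NoDescent

open CategoryTheory CategoryTheory.Limits CategoryTheory.MonoidalCategory
open CategoryTheory.Pretriangulated Pool.Agent.Helper609_TT Pool.Agent.H939.TT

/-- There is a conservative geometric functor `Φ : T ⥤ S` between rigidly-compactly generated
tt-categories with weakly noetherian spectra such that `S` is stratified and `T` is not. -/
theorem result :
    ∃ (T : Type 1) (_ : Category.{0} T) (_ : Preadditive T) (_ : HasZeroObject T)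
      (_ : HasShift T ℤ) (_ : ∀ n : ℤ, (shiftFunctor T n).Additive) (_ : Pretriangulated T)
      (_ : IsTriangulated T) (_ : MonoidalCategory T) (_ : SymmetricCategory T)
      (_ : RigidlyCompactlyGenerated T)
      (S : Type 1) (_ : Category.{0} S) (_ : Preadditive S) (_ : HasZeroObject S)
      (_ : HasShift S ℤ) (_ : ∀ n : ℤ, (shiftFunctor S n).Additive) (_ : Pretriangulated S)
      (_ : IsTriangulated S) (_ : MonoidalCategory S) (_ : SymmetricCategory S)
      (_ : RigidlyCompactlyGenerated S)
      (Φ : T ⥤ S) (_ : Φ.Braided) (_ : Φ.CommShift ℤ) (_ : Φ.IsTriangulated),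
      TensorCompatible T ∧ TensorCompatible S ∧ FunctorCompatible Φ ∧
      (∀ J : Type, PreservesColimitsOfShape (Discrete J) Φ) ∧
      (∀ t : T, IsZero (Φ.obj t) → IsZero t) ∧
      WeaklyNoetherian T ∧ WeaklyNoetherian S ∧ Stratified S ∧ ¬ Stratified T := by
  obtain ⟨F, _, _, ⟨I⟩⟩ := exists_field
  have hI := ingredients I
  have hS := prod_rigid hI.rigA hI.rigB
  have h := counterexample hI
  exact ⟨DT (Tee I), inferInstance, inferInstance, inferInstance, inferInstance, inferInstance,
    inferInstance, inferInstance, inferInstance, inferInstance, dtRCG hI.rigT,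
    DT (Kap I × Eta I), inferInstance, inferInstance, inferInstance, inferInstance, inferInstance,
    inferInstance, inferInstance, inferInstance, inferInstance, dtRCG hS,
    DT.map ((teeKap I).prod' (teeEta I)), inferInstance, inferInstance, inferInstance,
    dt_compatible hI.rigT, dt_compatible hS, dtMap_compatible hI.rigT hS _, h⟩

end Pool.Agent.Results.MP_ca4e36_al.NoDescent
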